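import Mathlib
import Pool.Agent.Helper485_RE.Entropy
import Pool.Agent.Helper485_RE.Exponent

/-!
# MP_794bd6_an: a diffeomorphism with no measure attaining equality in Ruelle's inequality

The real-analytic diffeomorphism `f(x)_i = x_i √(1 + ε (x_{i+1}² − x_{i+2}²))`, `ε = 1/200`
(indices modulo three), of the unit sphere of `ℝ³` satisfies `h(ρ) = 0` and
`∫ χ₊ dρ ≥ (1/2) log (1 + ε²/3) > 0` for each of its invariant Borel probability measures `ρ`.
The invariant measures are carried by the six vertices `±e_j` (saddles) and the eight centres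
`x_i² = 1/3` (sources); almost all other orbits approach heteroclinic cycles.
-/

set_option autoImplicit false

open Pool.Agent.Helper485_RE MeasureTheory
open scoped Manifold ContDiff

namespace Pool.Agent.Results.MP_794bd6_an.NoEqualityState

/-- The manifold `M` has a real-analytic diffeomorphism `f` with the following property, for some
`c > 0`: for every `f`-invariant Borel probability measure `ρ` (and every family `g` of inner
products on the tangent spaces, in particular every Riemannian metric) `h(ρ) = 0`, while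
`∫ χ₊ dρ ≥ c`, and so `h(ρ) < ∫ χ₊ dρ`. -/
def HasDiffeoWithoutEquality {E : Type} [NormedAddCommGroup E] [NormedSpace ℝ E] {H : Type}
    [TopologicalSpace H] (I : ModelWithCorners ℝ E H) (M : Type) [TopologicalSpace M]
    [ChartedSpace H M] [MeasurableSpace M] : Prop :=
  ∃ (f : Diffeomorph I I M M ω) (c : ℝ), 0 < c ∧
    ∀ (g : Bundle.RiemannianMetric (fun x : M => TangentSpace I x)) (ρ : Measure M),
      IsProbabilityMeasure ρ → MeasurePreserving f ρ ρ →
        ksEntropy f ρ = 0 ∧ ENNReal.ofReal c ≤ ∫⁻ x, chiPlus I g f x ∂ρ ∧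
          ksEntropy f ρ < ∫⁻ x, chiPlus I g f x ∂ρ

/-- **Ruelle's inequality need not be attained.** The unit sphere of `ℝ³` has a real-analytic
diffeomorphism `f` with `h(ρ) = 0 < c ≤ ∫ χ₊ dρ` for every `f`-invariant Borel probability measure
`ρ`, with `c > 0` not depending on `ρ`. -/
theorem result :
    HasDiffeoWithoutEquality (𝓡 2) (Metric.sphere (0 : EuclideanSpace ℝ (Fin 3)) 1) := by
  refine ⟨fS, Real.log kap, Real.log_pos one_lt_kap, fun g ρ hρ hf => ?_⟩
  have h1 : ksEntropy fS ρ = 0 := ksEntropy_eq_zero (ae_fixed hf)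
  have h2 : ENNReal.ofReal (Real.log kap) ≤ ∫⁻ x, chiPlus (𝓡 2) g fS x ∂ρ := by
    calc ENNReal.ofReal (Real.log kap)
        = ∫⁻ _, ENNReal.ofReal (Real.log kap) ∂ρ := by
          rw [lintegral_const, measure_univ, mul_one]
      _ ≤ ∫⁻ x, chiPlus (𝓡 2) g fS x ∂ρ := by
          apply lintegral_mono_ae
          filter_upwards [ae_special hf] with x hx
          exact chiPlus_special g hx
  have h3 : 0 < ENNReal.ofReal (Real.log kap) :=
    ENNReal.ofReal_pos.2 (Real.log_pos one_lt_kap)
  refine ⟨h1, h2, ?_⟩
  rw [h1]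
  exact lt_of_lt_of_le h3 h2

end Pool.Agent.Results.MP_794bd6_an.NoEqualityState
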